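import Pool.Agent.Helper505_K9.SelfComp
set_option autoImplicit false
namespace Pool.Agent.Helper505_K9
open Pool.Agent.Helper805.CHS

lemma per_iff (ψ : Equiv.Perm (Fin 9)) (k : ℕ) (y : Fin 9) :
    (ψ ^ k) y = y ↔ Function.IsPeriodicPt ψ k y := by
  unfold Function.IsPeriodicPt Function.IsFixedPt
  rw [← Equiv.Perm.iterate_eq_pow]

lemma per_dvd (ψ : Equiv.Perm (Fin 9)) (a b c : ℕ) (y : Fin 9) (ha : (ψ ^ a) y = y)
    (hb : (ψ ^ b) y = y) (hc : Nat.gcd a b ∣ c) : (ψ ^ c) y = y := by
  rw [per_iff] at *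
  exact (ha.gcd hb).trans_dvd hc

lemma pow_sub_fix (ψ : Equiv.Perm (Fin 9)) (a b : ℕ) (y : Fin 9) (hab : a ≤ b)
    (h : (ψ ^ a) y = (ψ ^ b) y) : (ψ ^ (b - a)) y = y := by
  have : (ψ ^ b) y = (ψ ^ a) ((ψ ^ (b - a)) y) := by
    rw [← Equiv.Perm.mul_apply, ← pow_add]
    congr 2
    omega
  rw [this] at h
  exact ((ψ ^ a).injective h).symm

lemma fix_pow (ψ : Equiv.Perm (Fin 9)) (x : Fin 9) (hx : ψ x = x) (k : ℕ) : (ψ ^ k) x = x := by
  induction k with
  | zero => rfl
  | succ k ih => rw [pow_succ', Equiv.Perm.mul_apply, ih, hx]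

theorem anti_struct (H : SimpleGraph (Fin 9)) (ψ : Equiv.Perm (Fin 9)) (h : Anti H ψ)
    (hp : ψ ^ 128 = 1) : ∃ e : Fin 9 → Fin 9, Function.Injective e ∧
      ((∀ i, ψ (e i) = e (s44 i)) ∨ (∀ i, ψ (e i) = e (s8 i))) := by
  classical
  have : Fact (Nat.Prime 2) := ⟨Nat.prime_two⟩
  obtain ⟨x0, hx0⟩ := Equiv.Perm.exists_fixed_point_of_prime (p := 2) (n := 7) (α := Fin 9)
    (by simp) (σ := ψ) (by norm_num; exact hp)
  have h128 : ∀ y, (ψ ^ 128) y = y := fun y => by rw [hp]; rfl
  have hx0' : ∀ k y, (ψ ^ k) y = x0 → y = x0 := fun k y hy =>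
    (ψ ^ k).injective (hy.trans (fix_pow ψ x0 hx0 k).symm)
  by_cases hA : ∃ y, (ψ ^ 4) y ≠ y
  · obtain ⟨y, hy⟩ := hA
    have hyx : y ≠ x0 := by
      rintro rfl
      exact hy (fix_pow ψ _ hx0 4)
    have hd : ∀ d, 1 ≤ d → d ≤ 7 → (ψ ^ d) y ≠ y := by
      intro d h1 h7 hh
      refine hy (per_dvd ψ d 128 4 y hh (h128 y) ?_)
      interval_cases d <;> decide
    let e : Fin 9 → Fin 9 := fun i => if i.val < 8 then (ψ ^ i.val) y else x0
    have he1 : ∀ i : Fin 9, i.val < 8 → e i = (ψ ^ i.val) y := fun i hi => if_pos hi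
    have he2 : ∀ i : Fin 9, ¬ i.val < 8 → e i = x0 := fun i hi => if_neg hi
    have hinj : Function.Injective e := by
      intro i j hij
      by_cases hi : i.val < 8 <;> by_cases hj : j.val < 8
      · rw [he1 i hi, he1 j hj] at hij
        by_contra hne
        have hne' : i.val ≠ j.val := fun hh => hne (Fin.ext hh)
        rcases lt_or_gt_of_ne hne' with hlt | hlt
        · exact hd (j.val - i.val) (by omega) (by omega) (pow_sub_fix ψ _ _ y hlt.le hij)
        · exact hd (i.val - j.val) (by omega) (by omega) (pow_sub_fix ψ _ _ y hlt.le hij.symm)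
      · rw [he1 i hi, he2 j hj] at hij
        exact absurd (hx0' _ _ hij) hyx
      · rw [he2 i hi, he1 j hj] at hij
        exact absurd (hx0' _ _ hij.symm) hyx
      · exact Fin.ext (by omega)
    have h8 : (ψ ^ 8) y = y := by
      obtain ⟨i, hi⟩ := (Finite.injective_iff_surjective.mp hinj) ((ψ ^ 8) y)
      by_cases hi8 : i.val < 8
      · rw [he1 i hi8] at hi
        by_cases hi0 : i.val = 0
        · rw [hi0] at hi
          exact hi.symm
        · exact absurd (pow_sub_fix ψ _ _ y hi8.le hi) (hd _ (by omega) (by omega))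
      · rw [he2 i hi8] at hi
        exact absurd (hx0' _ _ hi.symm) hyx
    refine ⟨e, hinj, Or.inr fun i => ?_⟩
    by_cases hi : i.val < 7
    · have h1 : (s8 i).val = i.val + 1 := by
        revert hi; revert i; decide
      rw [he1 i (by omega), he1 (s8 i) (by omega), h1, pow_succ']
      rfl
    · by_cases hi7 : i.val = 7
      · have h1 : (s8 i).val = 0 := by
          revert hi7; revert i; decide
        rw [he1 i (by omega), he1 (s8 i) (by omega), h1, hi7, ← Equiv.Perm.mul_apply, ← pow_succ']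
        exact h8
      · have h1 : ¬ (s8 i).val < 8 := by
          have : i.val = 8 := by omega
          revert this; revert i; decide
        rw [he2 i (by omega), he2 (s8 i) h1]
        exact hx0
  · push Not at hA
    have h2 : ∀ y, y ≠ x0 → (ψ ^ 2) y ≠ y := by
      intro y hy hh
      by_cases h1 : ψ y = y
      · exact anti_fix H ψ h y x0 hy h1 hx0
      · exact anti_swap H ψ h y (ψ y) (Ne.symm h1) rfl hh
    have hd : ∀ y, y ≠ x0 → ∀ d, 1 ≤ d → d ≤ 3 → (ψ ^ d) y ≠ y := by
      intro y hy d h1 h3 hh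
      refine h2 y hy (per_dvd ψ d 4 2 y hh (hA y) ?_)
      interval_cases d <;> decide
    obtain ⟨y, hy⟩ : ∃ y : Fin 9, y ≠ x0 := exists_ne x0
    obtain ⟨z, hz⟩ : ∃ z : Fin 9, z ∉ ({x0, y, ψ y, (ψ ^ 2) y, (ψ ^ 3) y} : Finset (Fin 9)) := by
      by_contra hcon
      push Not at hcon
      have h1 : (Finset.univ : Finset (Fin 9)) ⊆ {x0, y, ψ y, (ψ ^ 2) y, (ψ ^ 3) y} :=
        fun z _ => hcon z
      have h3 := (Finset.card_le_card h1).trans Finset.card_le_five
      simp at h3
    simp only [Finset.mem_insert, Finset.mem_singleton, not_or] at hz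
    obtain ⟨hz0, hz1, hz2, hz3, hz4⟩ := hz
    have hzy : ∀ k, k ≤ 3 → z ≠ (ψ ^ k) y := by
      intro k hk
      interval_cases k
      · exact hz1
      · rw [pow_one]; exact hz2
      · exact hz3
      · exact hz4
    have hzy' : ∀ a b, a ≤ 3 → b ≤ 3 → (ψ ^ a) y ≠ (ψ ^ b) z := by
      intro a b ha hb hh
      by_cases hab : b ≤ a
      · have e1 : (ψ ^ a) y = (ψ ^ b) ((ψ ^ (a - b)) y) := by
          rw [← Equiv.Perm.mul_apply, ← pow_add]
          congr 2
          omega
        rw [e1] at hh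
        exact hzy (a - b) (by omega) ((ψ ^ b).injective hh).symm
      · have e1 : (ψ ^ a) y = (ψ ^ b) ((ψ ^ (a + 4 - b)) y) := by
          rw [← Equiv.Perm.mul_apply, ← pow_add, show b + (a + 4 - b) = a + 4 by omega, pow_add,
            Equiv.Perm.mul_apply, hA]
        rw [e1] at hh
        exact hzy (a + 4 - b) (by omega) ((ψ ^ b).injective hh).symm
    let e : Fin 9 → Fin 9 := fun i =>
      if i.val < 4 then (ψ ^ i.val) y else if i.val < 8 then (ψ ^ (i.val - 4)) z else x0
    have he1 : ∀ i : Fin 9, i.val < 4 → e i = (ψ ^ i.val) y := fun i hi => if_pos hi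
    have he2 : ∀ i : Fin 9, ¬ i.val < 4 → i.val < 8 → e i = (ψ ^ (i.val - 4)) z :=
      fun i hi hi' => by simp only [e, if_neg hi, if_pos hi']
    have he3 : ∀ i : Fin 9, ¬ i.val < 4 → ¬ i.val < 8 → e i = x0 :=
      fun i hi hi' => by simp only [e, if_neg hi, if_neg hi']
    have hinj : Function.Injective e := by
      have key : ∀ i j : Fin 9, i.val < j.val → e i ≠ e j := by
        intro i j hlt hij
        by_cases hi : i.val < 4
        · rw [he1 i hi] at hij
          by_cases hj : j.val < 4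
          · rw [he1 j hj] at hij
            exact hd y hy (j.val - i.val) (by omega) (by omega) (pow_sub_fix ψ _ _ y hlt.le hij)
          · by_cases hj' : j.val < 8
            · rw [he2 j hj hj'] at hij
              exact hzy' _ _ (by omega) (by omega) hij
            · rw [he3 j hj hj'] at hij
              exact hy (hx0' _ _ hij)
        · by_cases hi' : i.val < 8
          · rw [he2 i hi hi'] at hij
            by_cases hj' : j.val < 8
            · rw [he2 j (by omega) hj'] at hij
              refine hd z hz0 (j.val - 4 - (i.val - 4)) (by omega) (by omega)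
                (pow_sub_fix ψ _ _ z (by omega) hij)
            · rw [he3 j (by omega) hj'] at hij
              exact hz0 (hx0' _ _ hij)
          · omega
      intro i j hij
      by_contra hne
      have hne' : i.val ≠ j.val := fun hh => hne (Fin.ext hh)
      rcases lt_or_gt_of_ne hne' with hlt | hlt
      · exact key i j hlt hij
      · exact key j i hlt hij.symm
    refine ⟨e, hinj, Or.inl fun i => ?_⟩
    have c : ∀ i : Fin 9, (i.val < 3 ∧ (s44 i).val = i.val + 1) ∨ (i.val = 3 ∧ (s44 i).val = 0) ∨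
        (4 ≤ i.val ∧ i.val < 7 ∧ (s44 i).val = i.val + 1) ∨ (i.val = 7 ∧ (s44 i).val = 4) ∨
        (i.val = 8 ∧ (s44 i).val = 8) := by decide
    rcases c i with ⟨h1, h3⟩ | ⟨h1, h3⟩ | ⟨h1, h1', h3⟩ | ⟨h1, h3⟩ | ⟨h1, h3⟩
    · rw [he1 i (by omega), he1 (s44 i) (by omega), h3, pow_succ']
      rfl
    · rw [he1 i (by omega), he1 (s44 i) (by omega), h3, h1, ← Equiv.Perm.mul_apply, ← pow_succ']
      exact hA y
    · rw [he2 i (by omega) (by omega), he2 (s44 i) (by omega) (by omega), h3,
        show i.val + 1 - 4 = (i.val - 4) + 1 by omega, pow_succ']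
      rfl
    · rw [he2 i (by omega) (by omega), he2 (s44 i) (by omega) (by omega), h3, h1,
        ← Equiv.Perm.mul_apply, ← pow_succ']
      exact hA z
    · rw [he3 i (by omega) (by omega), he3 (s44 i) (by omega) (by omega)]
      exact hx0

/-- Every self-complementary graph on nine vertices contains, after an injective relabelling of the
vertices, a `K₅` model. -/
theorem selfcomp_model (H : SimpleGraph (Fin 9)) (φ : Equiv.Perm (Fin 9)) (h : Anti H φ) :
    ∃ e : Fin 9 → Fin 9, Function.Injective e ∧ K5Model (H.comap e) := by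
  have h1 : Anti H (φ ^ 2835) := anti_odd H φ h 1417
  have h2 : (φ ^ 2835) ^ 128 = 1 := by
    rw [← pow_mul]
    have : Fintype.card (Equiv.Perm (Fin 9)) = 2835 * 128 := by
      rw [Fintype.card_perm, Fintype.card_fin]
      rfl
    rw [← this]
    exact pow_card_eq_one
  obtain ⟨e, he, hr⟩ := anti_struct H _ h1 h2
  refine ⟨e, he, ?_⟩
  rcases hr with hr | hr
  · refine model44 _ fun i j hij => ?_
    rw [SimpleGraph.comap_adj, SimpleGraph.comap_adj, ← hr, ← hr]
    exact h1 _ _ (fun hh => hij (he hh))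
  · refine model8 _ fun i j hij => ?_
    rw [SimpleGraph.comap_adj, SimpleGraph.comap_adj, ← hr, ← hr]
    exact h1 _ _ (fun hh => hij (he hh))

end Pool.Agent.Helper505_K9
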