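import Mathlib

/-!
A drawing of `K₉` on two planes with exactly one crossing (straight segments, integer coordinates).
-/

set_option autoImplicit false

namespace Pool.Agent.Helper505_K9

/-- the segment from `z` to `w` -/
noncomputable def seg (z w : ℂ) (t : ℝ) : ℂ :=
  ⟨(1 - t) * z.re + t * w.re, (1 - t) * z.im + t * w.im⟩

/-- orientation of a triple of points -/
noncomputable def orr (a b c : ℂ) : ℝ :=
  (b.re - a.re) * (c.im - a.im) - (b.im - a.im) * (c.re - a.re)

lemma seg_zero (z w : ℂ) : seg z w 0 = z := by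
  apply Complex.ext <;> simp [seg]

lemma seg_one (z w : ℂ) : seg z w 1 = w := by
  apply Complex.ext <;> simp [seg]

lemma seg_rev (z w : ℂ) (t : ℝ) : seg w z t = seg z w (1 - t) := by
  apply Complex.ext <;> simp only [seg] <;> ring

lemma seg_cont (z w : ℂ) : Continuous (seg z w) := by
  have h : seg z w = fun t : ℝ => ((1 - t : ℝ) : ℂ) * z + (t : ℂ) * w := by
    funext t
    apply Complex.ext <;> simp [seg]
  rw [h]
  fun_prop

lemma seg_inj {z w : ℂ} (h : z ≠ w) {s t : ℝ} (hst : seg z w s = seg z w t) : s = t := by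
  have h1 := congrArg Complex.re hst
  have h2 := congrArg Complex.im hst
  simp only [seg] at h1 h2
  by_contra hne
  apply h
  have h3 : s - t ≠ 0 := sub_ne_zero.mpr hne
  apply Complex.ext
  · have : (s - t) * (w.re - z.re) = 0 := by linear_combination h1
    rcases mul_eq_zero.mp this with h | h
    · exact absurd h h3
    · linarith
  · have : (s - t) * (w.im - z.im) = 0 := by linear_combination h2
    rcases mul_eq_zero.mp this with h | h
    · exact absurd h h3
    · linarith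

lemma orr_seg (a b c d : ℂ) (t : ℝ) :
    orr a b (seg c d t) = (1 - t) * orr a b c + t * orr a b d := by
  simp only [orr, seg]
  ring

lemma orr_self (a b : ℂ) (t : ℝ) : orr a b (seg a b t) = 0 := by
  simp only [orr, seg]
  ring

/-- first coordinates -/
def X : Fin 2 → Fin 9 → ℤ :=
  ![![8, 5, 5, 3, 4, 6, 2, 3, 0], ![6, 4, 5, 5, 3, 4, 3, 8, 2]]

/-- second coordinates -/
def Y : Fin 2 → Fin 9 → ℤ :=
  ![![1, 5, 8, 2, 4, 4, 3, 5, 1], ![2, 6, 1, 6, 0, 8, 4, 1, 7]]

/-- the colouring of the edges of `K₉` by the two planes -/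
def col : Fin 9 → Fin 9 → Fin 2 :=
  ![![1, 1, 0, 0, 0, 0, 1, 1, 0],
    ![1, 1, 0, 1, 0, 0, 1, 1, 1],
    ![0, 0, 1, 0, 0, 0, 0, 0, 0],
    ![0, 1, 0, 1, 0, 1, 0, 1, 0],
    ![0, 0, 0, 0, 1, 0, 1, 1, 1],
    ![0, 0, 0, 1, 0, 1, 1, 1, 1],
    ![1, 1, 0, 0, 1, 1, 1, 0, 0],
    ![1, 1, 0, 1, 1, 1, 0, 1, 0],
    ![0, 1, 0, 0, 1, 1, 0, 0, 1]]

lemma col_symm : ∀ u v, col u v = col v u := by decide

/-- the points -/
noncomputable def P (i : Fin 2) (v : Fin 9) : ℂ := ⟨(X i v : ℝ), (Y i v : ℝ)⟩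

/-- integer orientation -/
def oz (i : Fin 2) (a b c : Fin 9) : ℤ :=
  (X i b - X i a) * (Y i c - Y i a) - (Y i b - Y i a) * (X i c - X i a)

lemma orr_P (i : Fin 2) (a b c : Fin 9) : orr (P i a) (P i b) (P i c) = (oz i a b c : ℝ) := by
  simp only [orr, P, oz]
  push_cast
  ring

lemma gp : ∀ (i : Fin 2) (u v w : Fin 9), u ≠ v → oz i u v w = 0 → w = u ∨ w = v := by
  decide +kernel

lemma P_inj (i : Fin 2) : Function.Injective (P i) := by
  intro u v h
  have h1 := congrArg Complex.re h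
  have h2 := congrArg Complex.im h
  simp only [P] at h1 h2
  have h1' : X i u = X i v := by exact_mod_cast h1
  have h2' : Y i u = Y i v := by exact_mod_cast h2
  have key : ∀ (i : Fin 2) (u v : Fin 9), X i u = X i v → Y i u = Y i v → u = v := by
    decide +kernel
  exact key i u v h1' h2'

/-- the edges `u v` and `x y` cross -/
def bad (i : Fin 2) (u v x y : Fin 9) : Bool :=
  decide (u ≠ v) && decide (x ≠ y) && decide (col u v = i) && decide (col x y = i) &&
  !(decide (u = x) && decide (v = y)) && !(decide (u = y) && decide (v = x)) &&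
  decide (oz i u v x * oz i u v y < 0) && decide (oz i x y u * oz i x y v < 0)

lemma sign_aux (A B : ℤ) (t : ℝ) (h0 : 0 < t) (h1 : t < 1) (hA : A ≠ 0)
    (h : (1 - t) * (A : ℝ) + t * (B : ℝ) = 0) : A * B < 0 := by
  have h2 : 0 < 1 - t := by linarith
  rcases lt_or_gt_of_ne hA with hA | hA
  · have hA' : (A : ℝ) < 0 := by exact_mod_cast hA
    have hB : (0 : ℝ) < B := by
      by_contra hB
      push Not at hB
      nlinarith [mul_pos h2 (neg_pos.mpr hA'), mul_nonneg h0.le (neg_nonneg.mpr hB)]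
    have hB' : 0 < B := by exact_mod_cast hB
    exact mul_neg_of_neg_of_pos hA hB'
  · have hA' : (0 : ℝ) < A := by exact_mod_cast hA
    have hB : (B : ℝ) < 0 := by
      by_contra hB
      push Not at hB
      nlinarith [mul_pos h2 hA', mul_nonneg h0.le hB]
    have hB' : B < 0 := by exact_mod_cast hB
    exact mul_neg_of_pos_of_neg hA hB'

/-- if one of the orientations vanishes then the two edges are equal -/
lemma ne_aux (i : Fin 2) (u v x y : Fin 9) (huv : u ≠ v) (hxy : x ≠ y)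
    (h1 : ¬ (u = x ∧ v = y)) (h2 : ¬ (u = y ∧ v = x)) (t : ℝ) (h0 : 0 < t)
    (h : (1 - t) * (oz i u v x : ℝ) + t * (oz i u v y : ℝ) = 0) : oz i u v x ≠ 0 := by
  intro hA
  rw [hA] at h
  have hB : oz i u v y = 0 := by
    have : t * (oz i u v y : ℝ) = 0 := by
      simpa using h
    rcases mul_eq_zero.mp this with h | h
    · exact absurd h h0.ne'
    · exact_mod_cast h
  rcases gp i u v x huv hA with hx | hx <;> rcases gp i u v y huv hB with hy | hy
  · exact hxy (hx.trans hy.symm)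
  · exact h1 ⟨hx.symm, hy.symm⟩
  · exact h2 ⟨hy.symm, hx.symm⟩
  · exact hxy (hx.trans hy.symm)

lemma bad_of_cross (i : Fin 2) (u v x y : Fin 9) (huv : u ≠ v) (hxy : x ≠ y)
    (hc1 : col u v = i) (hc2 : col x y = i)
    (h1 : ¬ (u = x ∧ v = y)) (h2 : ¬ (u = y ∧ v = x)) (s t : ℝ) (hs0 : 0 < s) (hs1 : s < 1)
    (ht0 : 0 < t) (ht1 : t < 1) (h : seg (P i u) (P i v) s = seg (P i x) (P i y) t) :
    bad i u v x y = true ∧
      t = (oz i u v x : ℝ) / ((oz i u v x : ℝ) - (oz i u v y : ℝ)) := by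
  have e1 : (1 - t) * (oz i u v x : ℝ) + t * (oz i u v y : ℝ) = 0 := by
    rw [← orr_P, ← orr_P, ← orr_seg, ← h, orr_self]
  have e2 : (1 - s) * (oz i x y u : ℝ) + s * (oz i x y v : ℝ) = 0 := by
    rw [← orr_P, ← orr_P, ← orr_seg, h, orr_self]
  have n1 := ne_aux i u v x y huv hxy h1 h2 t ht0 e1
  have n2 := ne_aux i x y u v hxy huv (fun hh => h1 ⟨hh.1.symm, hh.2.symm⟩)
    (fun hh => h2 ⟨hh.2.symm, hh.1.symm⟩) s hs0 e2
  have s1 := sign_aux _ _ t ht0 ht1 n1 e1
  have s2 := sign_aux _ _ s hs0 hs1 n2 e2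
  constructor
  · unfold bad
    simp only [Bool.and_eq_true, decide_eq_true_eq, Bool.not_eq_true', Bool.and_eq_false_iff,
      decide_eq_false_iff_not]
    refine ⟨⟨⟨⟨⟨⟨⟨huv, hxy⟩, hc1⟩, hc2⟩, ?_⟩, ?_⟩, s1⟩, s2⟩
    · tauto
    · tauto
  · have hne : (oz i u v x : ℝ) - (oz i u v y : ℝ) ≠ 0 := by
      intro hh
      have h3 : oz i u v x = oz i u v y := by
        have : (oz i u v x : ℝ) = (oz i u v y : ℝ) := by linarith
        exact_mod_cast this
      rw [h3] at s1
      nlinarith [mul_self_nonneg (oz i u v y)]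
    rw [eq_div_iff hne]
    linear_combination (-1) * e1

/-- the list of crossing pairs of edges -/
def T : Finset (Fin 2 × Fin 9 × Fin 9 × Fin 9 × Fin 9) :=
  Finset.univ.filter fun x => bad x.1 x.2.1 x.2.2.1 x.2.2.2.1 x.2.2.2.2 = true

lemma T_card : T.card ≤ 8 := by
  unfold T
  decide +kernel

end Pool.Agent.Helper505_K9
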