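import Pool.Agent.Helper805.CHS.Drawn
import Pool.Agent.Helper505_K9.Struct
import Pool.Agent.Helper505_K9.Upper

/-!
`K₉` has no self-complementary optimal biplanar drawing.
-/

set_option autoImplicit false

namespace Pool.Agent.Helper505_K9

open Pool.Agent.Helper805.CHS

/-- the type of the tuples that record the crossings -/
abbrev Tup := Fin 2 × Fin 9 × Fin 9 × Fin 9 × Fin 9 × ℂ

/-- the crossings -/
def Cr (c : Fin 9 → Fin 9 → Fin 2) (γ : Fin 2 → Fin 9 → Fin 9 → ℝ → ℂ) : Set Tup :=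
  {x : Fin 2 × Fin 9 × Fin 9 × Fin 9 × Fin 9 × ℂ |
    (⊤ : SimpleGraph (Fin 9)).Adj x.2.1 x.2.2.1 ∧
      (⊤ : SimpleGraph (Fin 9)).Adj x.2.2.2.1 x.2.2.2.2.1 ∧
    c x.2.1 x.2.2.1 = x.1 ∧ c x.2.2.2.1 x.2.2.2.2.1 = x.1 ∧
    ¬ (x.2.1 = x.2.2.2.1 ∧ x.2.2.1 = x.2.2.2.2.1) ∧
    ¬ (x.2.1 = x.2.2.2.2.1 ∧ x.2.2.1 = x.2.2.2.1) ∧
    (∃ t : ℝ, 0 < t ∧ t < 1 ∧ γ x.1 x.2.1 x.2.2.1 t = x.2.2.2.2.2) ∧
    (∃ t : ℝ, 0 < t ∧ t < 1 ∧ γ x.1 x.2.2.2.1 x.2.2.2.2.1 t = x.2.2.2.2.2)}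

/-- the conditions on a biplanar drawing of `K₉` -/
def Good (c : Fin 9 → Fin 9 → Fin 2) (p : Fin 2 → Fin 9 → ℂ)
    (γ : Fin 2 → Fin 9 → Fin 9 → ℝ → ℂ) : Prop :=
  (∀ u v : Fin 9, (⊤ : SimpleGraph (Fin 9)).Adj u v → c u v = c v u) ∧
    (∀ i : Fin 2, Function.Injective (p i)) ∧
    (∀ i : Fin 2, ∀ u v : Fin 9, (⊤ : SimpleGraph (Fin 9)).Adj u v → c u v = i →
      ContinuousOn (γ i u v) (Set.Icc (0:ℝ) 1) ∧
      Set.InjOn (γ i u v) (Set.Icc (0:ℝ) 1) ∧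
      γ i u v 0 = p i u ∧ γ i u v 1 = p i v ∧
      (∀ t : ℝ, 0 ≤ t → t ≤ 1 → γ i v u t = γ i u v (1 - t)) ∧
      ∀ t : ℝ, 0 < t → t < 1 → ∀ w : Fin 9, γ i u v t ≠ p i w)

/-- the straight arcs -/
noncomputable def G0 (i : Fin 2) (u v : Fin 9) : ℝ → ℂ := seg (P i u) (P i v)

lemma good0 : Good col P G0 := by
  refine ⟨fun u v _ => col_symm u v, P_inj, ?_⟩
  intro i u v huv _
  have huv' : u ≠ v := huv
  have hP : P i u ≠ P i v := fun h => huv' (P_inj i h)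
  refine ⟨(seg_cont _ _).continuousOn, fun s _ t _ h => seg_inj hP h, seg_zero _ _, seg_one _ _,
    fun t _ _ => seg_rev _ _ _, ?_⟩
  intro t h0 h1 w hw
  by_cases hwu : w = u
  · subst hwu
    have : (0 : ℝ) = t := seg_inj hP ((seg_zero _ _).trans hw.symm)
    exact h0.ne this
  · by_cases hwv : w = v
    · subst hwv
      have : (1 : ℝ) = t := seg_inj hP ((seg_one _ _).trans hw.symm)
      exact h1.ne this.symm
    · have h2 : orr (P i u) (P i v) (P i w) = 0 := by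
        rw [← hw]
        exact orr_self _ _ _
      rw [orr_P] at h2
      have h3 : oz i u v w = 0 := by exact_mod_cast h2
      rcases gp i u v w huv' h3 with h | h
      · exact hwu h
      · exact hwv h

/-- the crossing point determined by a pair of edges -/
noncomputable def F (x : Fin 2 × Fin 9 × Fin 9 × Fin 9 × Fin 9) : Tup :=
  (x.1, x.2.1, x.2.2.1, x.2.2.2.1, x.2.2.2.2,
    seg (P x.1 x.2.2.2.1) (P x.1 x.2.2.2.2)
      ((oz x.1 x.2.1 x.2.2.1 x.2.2.2.1 : ℝ) /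
        ((oz x.1 x.2.1 x.2.2.1 x.2.2.2.1 : ℝ) - (oz x.1 x.2.1 x.2.2.1 x.2.2.2.2 : ℝ))))

lemma cr0_sub : Cr col G0 ⊆ ((T.image F : Finset Tup) : Set Tup) := by
  classical
  rintro ⟨i, u, v, x, y, z⟩ ⟨huv, hxy, hc1, hc2, h1, h2, ⟨s, hs0, hs1, hs⟩, ⟨t, ht0, ht1, ht⟩⟩
  simp only at huv hxy hc1 hc2 h1 h2 hs ht
  obtain ⟨hb, htt⟩ := bad_of_cross i u v x y huv hxy hc1 hc2 h1 h2 s t hs0 hs1 ht0 ht1
    (hs.trans ht.symm)
  rw [Finset.mem_coe, Finset.mem_image]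
  refine ⟨(i, u, v, x, y), ?_, ?_⟩
  · unfold T
    rw [Finset.mem_filter]
    exact ⟨Finset.mem_univ _, hb⟩
  · simp only [F]
    rw [← htt]
    have : seg (P i x) (P i y) t = z := ht
    rw [this]

lemma cr0_finite : (Cr col G0).Finite :=
  Set.Finite.subset (Finset.finite_toSet _) cr0_sub

lemma cr0_ncard : (Cr col G0).ncard ≤ 8 := by
  classical
  calc (Cr col G0).ncard ≤ ((T.image F : Finset Tup) : Set Tup).ncard :=
        Set.ncard_le_ncard cr0_sub (Finset.finite_toSet _)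
    _ = (T.image F).card := Set.ncard_coe_finset _
    _ ≤ T.card := Finset.card_image_le
    _ ≤ 8 := T_card

/-- the eight records of one crossing -/
def var8 (i : Fin 2) (u v x y : Fin 9) (z : ℂ) : Fin 8 → Tup :=
  ![(i, u, v, x, y, z), (i, v, u, x, y, z), (i, u, v, y, x, z), (i, v, u, y, x, z),
    (i, x, y, u, v, z), (i, x, y, v, u, z), (i, y, x, u, v, z), (i, y, x, v, u, z)]

lemma rev_arc {c : Fin 9 → Fin 9 → Fin 2} {p : Fin 2 → Fin 9 → ℂ}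
    {γ : Fin 2 → Fin 9 → Fin 9 → ℝ → ℂ} (h : Good c p γ) (i : Fin 2) (u v : Fin 9) (z : ℂ)
    (huv : (⊤ : SimpleGraph (Fin 9)).Adj u v) (hc : c u v = i)
    (ht : ∃ t : ℝ, 0 < t ∧ t < 1 ∧ γ i u v t = z) : ∃ t : ℝ, 0 < t ∧ t < 1 ∧ γ i v u t = z := by
  obtain ⟨t, h0, h1, ht⟩ := ht
  refine ⟨1 - t, by linarith, by linarith, ?_⟩
  rw [(h.2.2 i u v huv hc).2.2.2.2.1 (1 - t) (by linarith) (by linarith)]
  rw [show 1 - (1 - t) = t by ring]
  exact ht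

lemma var8_mem {c : Fin 9 → Fin 9 → Fin 2} {p : Fin 2 → Fin 9 → ℂ}
    {γ : Fin 2 → Fin 9 → Fin 9 → ℝ → ℂ} (h : Good c p γ) (i : Fin 2) (u v x y : Fin 9) (z : ℂ)
    (hz : (i, u, v, x, y, z) ∈ Cr c γ) (k : Fin 8) : var8 i u v x y z k ∈ Cr c γ := by
  obtain ⟨huv, hxy, hc1, hc2, h1, h2, t1, t2⟩ := hz
  simp only at huv hxy hc1 hc2 h1 h2 t1 t2
  have t1' := rev_arc h i u v z huv hc1 t1
  have t2' := rev_arc h i x y z hxy hc2 t2
  have hc1' : c v u = i := (h.1 u v huv).symm.trans hc1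
  have hc2' : c y x = i := (h.1 x y hxy).symm.trans hc2
  fin_cases k
  · exact ⟨huv, hxy, hc1, hc2, h1, h2, t1, t2⟩
  · exact ⟨huv.symm, hxy, hc1', hc2, fun hh => h2 ⟨hh.2, hh.1⟩, fun hh => h1 ⟨hh.2, hh.1⟩, t1', t2⟩
  · exact ⟨huv, hxy.symm, hc1, hc2', fun hh => h2 ⟨hh.1, hh.2⟩, fun hh => h1 ⟨hh.1, hh.2⟩, t1, t2'⟩
  · exact ⟨huv.symm, hxy.symm, hc1', hc2', fun hh => h1 ⟨hh.2, hh.1⟩, fun hh => h2 ⟨hh.2, hh.1⟩,
      t1', t2'⟩
  · exact ⟨hxy, huv, hc2, hc1, fun hh => h1 ⟨hh.1.symm, hh.2.symm⟩,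
      fun hh => h2 ⟨hh.2.symm, hh.1.symm⟩, t2, t1⟩
  · exact ⟨hxy, huv.symm, hc2, hc1', fun hh => h2 ⟨hh.2.symm, hh.1.symm⟩,
      fun hh => h1 ⟨hh.1.symm, hh.2.symm⟩, t2, t1'⟩
  · exact ⟨hxy.symm, huv, hc2', hc1, fun hh => h2 ⟨hh.1.symm, hh.2.symm⟩,
      fun hh => h1 ⟨hh.2.symm, hh.1.symm⟩, t2', t1⟩
  · exact ⟨hxy.symm, huv.symm, hc2', hc1', fun hh => h1 ⟨hh.2.symm, hh.1.symm⟩,
      fun hh => h2 ⟨hh.1.symm, hh.2.symm⟩, t2', t1'⟩

lemma var8_inj (i : Fin 2) (u v x y : Fin 9) (z : ℂ) (huv : u ≠ v) (hxy : x ≠ y)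
    (h1 : ¬ (u = x ∧ v = y)) (h2 : ¬ (u = y ∧ v = x)) :
    Function.Injective (var8 i u v x y z) := by
  intro a b hab
  fin_cases a <;> fin_cases b <;> first | rfl | (exfalso; simp [var8] at hab; tauto)

/-- in an optimal drawing one of the two planes has no crossing -/
lemma plane_free {c : Fin 9 → Fin 9 → Fin 2} {p : Fin 2 → Fin 9 → ℂ}
    {γ : Fin 2 → Fin 9 → Fin 9 → ℝ → ℂ} (h : Good c p γ) (hfin : (Cr c γ).Finite)
    (hle : (Cr c γ).ncard ≤ 8) : ∃ i : Fin 2, ∀ x ∈ Cr c γ, x.1 ≠ i := by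
  classical
  by_contra hcon
  push Not at hcon
  obtain ⟨⟨i0, u, v, x, y, z⟩, hx0, h0⟩ := hcon 0
  obtain ⟨x1, hx1, h1⟩ := hcon 1
  simp only at h0
  subst h0
  have hinj : Function.Injective (var8 0 u v x y z) := by
    obtain ⟨huv, hxy, -, -, h3, h4, -, -⟩ := hx0
    exact var8_inj 0 u v x y z huv hxy h3 h4
  let S : Finset Tup := insert x1 (Finset.univ.image (var8 0 u v x y z))
  have hS : S.card = 9 := by
    rw [Finset.card_insert_of_notMem, Finset.card_image_of_injective _ hinj, Finset.card_univ,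
      Fintype.card_fin]
    intro hm
    rw [Finset.mem_image] at hm
    obtain ⟨k, -, hk⟩ := hm
    rw [← hk] at h1
    revert h1
    fin_cases k <;> simp [var8]
  have hsub : (S : Set Tup) ⊆ Cr c γ := by
    intro w hw
    rw [Finset.mem_coe, Finset.mem_insert] at hw
    rcases hw with rfl | hw
    · exact hx1
    · rw [Finset.mem_image] at hw
      obtain ⟨k, -, rfl⟩ := hw
      exact var8_mem h 0 u v x y z hx0 k
  have := Set.ncard_le_ncard hsub hfin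
  rw [Set.ncard_coe_finset, hS] at this
  omega

/-- a plane without crossings gives a drawing without crossings -/
lemma isDrawing {c : Fin 9 → Fin 9 → Fin 2} {p : Fin 2 → Fin 9 → ℂ}
    {γ : Fin 2 → Fin 9 → Fin 9 → ℝ → ℂ} (h : Good c p γ) (i : Fin 2)
    (hi : ∀ x ∈ Cr c γ, x.1 ≠ i) (H : SimpleGraph (Fin 9))
    (hH : ∀ u v, H.Adj u v → u ≠ v ∧ c u v = i) :
    IsDrawing H (p i) (fun u v t => γ i u v t) := by
  have hg := h.2.2 i
  refine ⟨h.2.1 i, ?_, ?_, ?_, ?_, ?_⟩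
  · intro u v huv
    obtain ⟨h1, h2⟩ := hH u v huv
    exact (continuousOn_iff_continuous_domRestrict.mp (hg u v h1 h2).1)
  · intro u v huv
    obtain ⟨h1, h2⟩ := hH u v huv
    exact (hg u v h1 h2).2.2.1
  · intro u v huv
    obtain ⟨h1, h2⟩ := hH u v huv
    exact (hg u v h1 h2).2.2.2.1
  · intro u v huv z t ht
    obtain ⟨h1, h2⟩ := hH u v huv
    obtain ⟨-, -, e0, e1, -, e2⟩ := hg u v h1 h2
    rcases eq_or_lt_of_le t.2.1 with h0 | h0
    · left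
      rw [← h0, e0] at ht
      exact (h.2.1 i ht).symm
    · rcases eq_or_lt_of_le t.2.2 with h3 | h3
      · right
        rw [h3, e1] at ht
        exact (h.2.1 i ht).symm
      · exact absurd ht (e2 t h0 h3 z)
  · intro u v w x huv hwx n1 n2 n3 n4 t s hts
    obtain ⟨h1, h2⟩ := hH u v huv
    obtain ⟨h1', h2'⟩ := hH w x hwx
    obtain ⟨-, -, e0, e1, -, e2⟩ := hg u v h1 h2
    obtain ⟨-, -, e0', e1', -, e2'⟩ := hg w x h1' h2'
    rcases eq_or_lt_of_le t.2.1 with h0 | h0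
    · left
      simp only [← h0, e0]
    · rcases eq_or_lt_of_le t.2.2 with h3 | h3
      · right
        simp only [h3, e1]
      · exfalso
        rcases eq_or_lt_of_le s.2.1 with s0 | s0
        · rw [← s0, e0'] at hts
          exact e2 t h0 h3 w hts
        · rcases eq_or_lt_of_le s.2.2 with s1 | s1
          · rw [s1, e1'] at hts
            exact e2 t h0 h3 x hts
          · refine hi (i, u, v, w, x, γ i u v t) ⟨h1, h1', h2, h2', ?_, ?_, ?_, ?_⟩ rfl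
            · exact fun hh => n1 hh.1
            · exact fun hh => n2 hh.1
            · exact ⟨t, h0, h3, rfl⟩
            · exact ⟨s, s0, s1, hts.symm⟩

lemma isDrawing_comap {V W : Type} {G : SimpleGraph V} {p : V → ℂ}
    {γ : V → V → unitInterval → ℂ} (h : IsDrawing G p γ) (e : W → V)
    (he : Function.Injective e) :
    IsDrawing (G.comap e) (p ∘ e) (fun u v => γ (e u) (e v)) := by
  refine ⟨h.inj.comp he, fun u v huv => h.cont _ _ huv, fun u v huv => h.zero _ _ huv,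
    fun u v huv => h.one _ _ huv, ?_, ?_⟩
  · intro u v huv z t ht
    exact (h.pts _ _ huv _ t ht).imp (fun hh => he hh) (fun hh => he hh)
  · intro u v w x huv hwx n1 n2 n3 n4 t s hts
    exact h.cross _ _ _ _ huv hwx (fun hh => n1 (he hh)) (fun hh => n2 (he hh))
      (fun hh => n3 (he hh)) (fun hh => n4 (he hh)) t s hts

/-- a self-complementary graph on nine vertices is not planar -/
lemma no_plane {c : Fin 9 → Fin 9 → Fin 2} {p : Fin 2 → Fin 9 → ℂ}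
    {γ : Fin 2 → Fin 9 → Fin 9 → ℝ → ℂ} (h : Good c p γ) (i : Fin 2)
    (hi : ∀ x ∈ Cr c γ, x.1 ≠ i) (H : SimpleGraph (Fin 9))
    (hH : ∀ u v, H.Adj u v → u ≠ v ∧ c u v = i) (φ : Equiv.Perm (Fin 9)) (ha : Anti H φ) :
    False := by
  obtain ⟨e, he, hm⟩ := selfcomp_model H φ ha
  exact no_K5Model (isDrawing_comap (isDrawing h i hi H hH) e he) hm

theorem main (c : Fin 9 → Fin 9 → Fin 2) (p : Fin 2 → Fin 9 → ℂ)
    (γ : Fin 2 → Fin 9 → Fin 9 → ℝ → ℂ) (h : Good c p γ) (hfin : (Cr c γ).Finite)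
    (φ : SimpleGraph.fromRel (fun u v => (⊤ : SimpleGraph (Fin 9)).Adj u v ∧ c u v = 0) ≃g
      SimpleGraph.fromRel (fun u v => (⊤ : SimpleGraph (Fin 9)).Adj u v ∧ c u v = 1))
    (hle : (Cr c γ).ncard ≤ 8) : False := by
  have a0 : ∀ u v, (SimpleGraph.fromRel
      (fun u v => (⊤ : SimpleGraph (Fin 9)).Adj u v ∧ c u v = 0)).Adj u v ↔
      u ≠ v ∧ c u v = 0 := by
    intro u v
    rw [SimpleGraph.fromRel_adj]
    constructor
    · rintro ⟨h1, h2 | h2⟩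
      · exact ⟨h1, h2.2⟩
      · exact ⟨h1, (h.1 u v h1).trans h2.2⟩
    · rintro ⟨h1, h2⟩
      exact ⟨h1, Or.inl ⟨h1, h2⟩⟩
  have a1 : ∀ u v, (SimpleGraph.fromRel
      (fun u v => (⊤ : SimpleGraph (Fin 9)).Adj u v ∧ c u v = 1)).Adj u v ↔
      u ≠ v ∧ c u v = 1 := by
    intro u v
    rw [SimpleGraph.fromRel_adj]
    constructor
    · rintro ⟨h1, h2 | h2⟩
      · exact ⟨h1, h2.2⟩
      · exact ⟨h1, (h.1 u v h1).trans h2.2⟩
    · rintro ⟨h1, h2⟩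
      exact ⟨h1, Or.inl ⟨h1, h2⟩⟩
  have hφ : ∀ u v : Fin 9, (φ u ≠ φ v ∧ c (φ u) (φ v) = 1) ↔ (u ≠ v ∧ c u v = 0) := by
    intro u v
    rw [← a0, ← a1]
    exact φ.map_rel_iff
  have two : ∀ a : Fin 2, a = 0 ∨ a = 1 := by decide
  have n01 : (0 : Fin 2) ≠ 1 := by decide
  obtain ⟨i, hi⟩ := plane_free h hfin hle
  rcases two i with rfl | rfl
  · refine no_plane h 0 hi _ (fun u v huv => (a0 u v).mp huv) φ.toEquiv ?_
    intro u v huv
    have h1 := hφ u v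
    have hne : φ u ≠ φ v := fun hh => huv (φ.toEquiv.injective hh)
    rw [a0, a0]
    show (φ u ≠ φ v ∧ c (φ u) (φ v) = 0) ↔ ¬ (u ≠ v ∧ c u v = 0)
    rw [← h1]
    constructor
    · rintro ⟨-, h2⟩ ⟨-, h3⟩
      exact n01 (h2.symm.trans h3)
    · intro h2
      refine ⟨hne, ?_⟩
      rcases two (c (φ u) (φ v)) with h3 | h3
      · exact h3
      · exact absurd ⟨hne, h3⟩ h2
  · refine no_plane h 1 hi _ (fun u v huv => (a1 u v).mp huv) φ.symm.toEquiv ?_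
    intro u v huv
    have h1 := hφ (φ.symm u) (φ.symm v)
    simp only [RelIso.apply_symm_apply] at h1
    have hne : φ.symm u ≠ φ.symm v := fun hh => huv (φ.symm.toEquiv.injective hh)
    rw [a1, a1]
    show (φ.symm u ≠ φ.symm v ∧ c (φ.symm u) (φ.symm v) = 1) ↔ ¬ (u ≠ v ∧ c u v = 1)
    rw [h1]
    constructor
    · rintro ⟨-, h2⟩ ⟨-, h3⟩
      exact n01 (h3.symm.trans h2)
    · intro h2
      refine ⟨hne, ?_⟩
      rcases two (c (φ.symm u) (φ.symm v)) with h3 | h3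
      · exact absurd ⟨hne, h3⟩ h2
      · exact h3

end Pool.Agent.Helper505_K9
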