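import Pool.Agent.Helper805.CHS.Basic

/-!
Every self-complementary graph on nine vertices has a `K₅` model.
-/

set_option autoImplicit false

namespace Pool.Agent.Helper505_K9

open Pool.Agent.Helper805.CHS

/-- a single vertex or an edge is connected -/
lemma pair_conn {V : Type} (H : SimpleGraph V) (a b : V) (h : a = b ∨ H.Adj a b) :
    (H.induce ({a, b} : Set V)).Connected := by
  rcases h with rfl | h
  · have : Subsingleton ({a, a} : Set V) := by
      refine ⟨fun x y => Subtype.ext ?_⟩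
      rcases x.2 with h | h <;> rcases y.2 with h' | h' <;> rw [h, h']
    have : Nonempty ({a, a} : Set V) := ⟨⟨a, Or.inl rfl⟩⟩
    exact ⟨fun x y => by rw [Subsingleton.elim x y]⟩
  · exact SimpleGraph.induce_pair_connected_of_adj h

/-- five pairs (possibly degenerate) of adjacent vertices as branch sets -/
lemma k5_of_pairs {V : Type} (H : SimpleGraph V) (a b : Fin 5 → V)
    (hab : ∀ i, a i = b i ∨ H.Adj (a i) (b i))
    (hdis : ∀ i j, i < j → a i ≠ a j ∧ a i ≠ b j ∧ b i ≠ a j ∧ b i ≠ b j)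
    (hadj : ∀ i j, i < j →
      H.Adj (a i) (a j) ∨ H.Adj (a i) (b j) ∨ H.Adj (b i) (a j) ∨ H.Adj (b i) (b j)) :
    K5Model H := by
  refine ⟨fun i => {a i, b i}, fun i => pair_conn H _ _ (hab i), ?_, ?_⟩
  · have key : ∀ i j, i < j → Disjoint ({a i, b i} : Set V) {a j, b j} := by
      intro i j hij
      obtain ⟨h1, h2, h3, h4⟩ := hdis i j hij
      rw [Set.disjoint_left]
      rintro x (rfl | rfl) (h | h)
      · exact h1 h
      · exact h2 h
      · exact h3 h
      · exact h4 h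
    intro i j hij
    rcases lt_or_gt_of_ne hij with h | h
    · exact key i j h
    · exact (key j i h).symm
  · have key : ∀ i j, i < j → ∃ x ∈ ({a i, b i} : Set V), ∃ y ∈ ({a j, b j} : Set V),
        H.Adj x y := by
      intro i j hij
      rcases hadj i j hij with h | h | h | h
      · exact ⟨_, Or.inl rfl, _, Or.inl rfl, h⟩
      · exact ⟨_, Or.inl rfl, _, Or.inr rfl, h⟩
      · exact ⟨_, Or.inr rfl, _, Or.inl rfl, h⟩
      · exact ⟨_, Or.inr rfl, _, Or.inr rfl, h⟩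
    intro i j hij
    rcases lt_or_gt_of_ne hij with h | h
    · exact key i j h
    · obtain ⟨x, hx, y, hy, hxy⟩ := key j i h
      exact ⟨y, hy, x, hx, hxy.symm⟩

/-- boolean form for graphs on `Fin 9` -/
def okb (f : Fin 9 → Fin 9 → Bool) (a b : Fin 5 → Fin 9) : Bool :=
  decide (∀ i, a i = b i ∨ f (a i) (b i) = true) &&
  decide (∀ i j, i < j → a i ≠ a j ∧ a i ≠ b j ∧ b i ≠ a j ∧ b i ≠ b j) &&
  decide (∀ i j, i < j →
      f (a i) (a j) = true ∨ f (a i) (b j) = true ∨ f (b i) (a j) = true ∨ f (b i) (b j) = true)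

lemma k5_of_okb (H : SimpleGraph (Fin 9)) (f : Fin 9 → Fin 9 → Bool)
    (hf : ∀ i j, f i j = true → H.Adj i j) (a b : Fin 5 → Fin 9) (h : okb f a b = true) :
    K5Model H := by
  unfold okb at h
  rw [Bool.and_eq_true, Bool.and_eq_true, decide_eq_true_eq, decide_eq_true_eq,
    decide_eq_true_eq] at h
  obtain ⟨⟨h1, h2⟩, h3⟩ := h
  refine k5_of_pairs H a b (fun i => (h1 i).imp_right (hf _ _)) h2 (fun i j hij => ?_)
  rcases h3 i j hij with h | h | h | h
  · exact Or.inl (hf _ _ h)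
  · exact Or.inr (Or.inl (hf _ _ h))
  · exact Or.inr (Or.inr (Or.inl (hf _ _ h)))
  · exact Or.inr (Or.inr (Or.inr (hf _ _ h)))

/-- the permutation with two cycles of length four -/
def s44 : Fin 9 → Fin 9 := ![1, 2, 3, 0, 5, 6, 7, 4, 8]

/-- the permutation with one cycle of length eight -/
def s8 : Fin 9 → Fin 9 := ![1, 2, 3, 4, 5, 6, 7, 0, 8]

/-- adjacency table for the type `4 + 4 + 1` -/
def t44 (x0 x1 x2 x3 x4 x5 x6 x7 x8 x9 : Bool) : Fin 9 → Fin 9 → Bool :=
  ![![false, x0, x1, !x0, x2, x3, x4, x5, x6],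
    ![x0, false, !x0, !x1, !x5, !x2, !x3, !x4, !x6],
    ![x1, !x0, false, x0, x4, x5, x2, x3, x6],
    ![!x0, !x1, x0, false, !x3, !x4, !x5, !x2, !x6],
    ![x2, !x5, x4, !x3, false, x7, x8, !x7, x9],
    ![x3, !x2, x5, !x4, x7, false, !x7, !x8, !x9],
    ![x4, !x3, x2, !x5, x8, !x7, false, x7, x9],
    ![x5, !x4, x3, !x2, !x7, !x8, x7, false, !x9],
    ![x6, !x6, x6, !x6, x9, !x9, x9, !x9, false]]

/-- adjacency table for the type `8 + 1` -/
def t8 (x1 x2 x3 x4 x5 : Bool) : Fin 9 → Fin 9 → Bool :=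
  ![![false, x1, x2, x3, x4, !x3, x2, !x1, x5],
    ![x1, false, !x1, !x2, !x3, !x4, x3, !x2, !x5],
    ![x2, !x1, false, x1, x2, x3, x4, !x3, x5],
    ![x3, !x2, x1, false, !x1, !x2, !x3, !x4, !x5],
    ![x4, !x3, x2, !x1, false, x1, x2, x3, x5],
    ![!x3, !x4, x3, !x2, x1, false, !x1, !x2, !x5],
    ![x2, x3, x4, !x3, x2, !x1, false, x1, x5],
    ![!x1, !x2, !x3, !x4, x3, !x2, x1, false, !x5],
    ![x5, !x5, x5, !x5, x5, !x5, x5, !x5, false]]

set_option maxRecDepth 100000 in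
lemma ok44 : ∀ x0 x1 x2 x3 x4 x5 x6 x7 x8 x9 : Bool,
    okb (t44 x0 x1 x2 x3 x4 x5 x6 x7 x8 x9) ![2, 0, 4, 7, 8] ![1, 3, 5, 6, 8] = true ∨
    okb (t44 x0 x1 x2 x3 x4 x5 x6 x7 x8 x9) ![3, 1, 6, 4, 8] ![0, 2, 5, 7, 8] = true ∨
    okb (t44 x0 x1 x2 x3 x4 x5 x6 x7 x8 x9) ![1, 2, 5, 4, 8] ![0, 3, 6, 7, 8] = true ∨
    okb (t44 x0 x1 x2 x3 x4 x5 x6 x7 x8 x9) ![0, 3, 5, 7, 8] ![1, 2, 4, 6, 8] = true := by
  decide +kernel

lemma ok8 : ∀ x1 x2 x3 x4 x5 : Bool,
    okb (t8 x1 x2 x3 x4 x5) ![1, 2, 6, 0, 8] ![4, 7, 3, 5, 8] = true ∨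
    okb (t8 x1 x2 x3 x4 x5) ![5, 3, 1, 4, 8] ![2, 0, 6, 7, 8] = true := by
  decide +kernel

lemma tab44 (g : Fin 9 → Fin 9 → Bool) (hs : ∀ i j, g i j = g j i) (h0 : ∀ i, g i i = false)
    (he : ∀ i j, i ≠ j → g (s44 i) (s44 j) = !g i j) :
    g = t44 (g 0 1) (g 0 2) (g 0 4) (g 0 5) (g 0 6) (g 0 7) (g 0 8) (g 4 5) (g 4 6) (g 4 8) := by
  have h10 : g 1 0 = g 0 1 := hs _ _
  have h12 : g 1 2 = !g 0 1 := he 0 1 (by decide)
  have h21 : g 2 1 = !g 0 1 := (hs _ _).trans h12
  have h23 : g 2 3 = g 0 1 := (he 1 2 (by decide)).trans (by rw [h12]; exact Bool.not_not _)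
  have h32 : g 3 2 = g 0 1 := (hs _ _).trans h23
  have h30 : g 3 0 = !g 0 1 := (he 2 3 (by decide)).trans (by rw [h23])
  have h03 : g 0 3 = !g 0 1 := (hs _ _).trans h30
  have h20 : g 2 0 = g 0 2 := hs _ _
  have h13 : g 1 3 = !g 0 2 := he 0 2 (by decide)
  have h31 : g 3 1 = !g 0 2 := (hs _ _).trans h13
  have h40 : g 4 0 = g 0 4 := hs _ _
  have h15 : g 1 5 = !g 0 4 := he 0 4 (by decide)
  have h51 : g 5 1 = !g 0 4 := (hs _ _).trans h15
  have h26 : g 2 6 = g 0 4 := (he 1 5 (by decide)).trans (by rw [h15]; exact Bool.not_not _)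
  have h62 : g 6 2 = g 0 4 := (hs _ _).trans h26
  have h37 : g 3 7 = !g 0 4 := (he 2 6 (by decide)).trans (by rw [h26])
  have h73 : g 7 3 = !g 0 4 := (hs _ _).trans h37
  have h50 : g 5 0 = g 0 5 := hs _ _
  have h16 : g 1 6 = !g 0 5 := he 0 5 (by decide)
  have h61 : g 6 1 = !g 0 5 := (hs _ _).trans h16
  have h27 : g 2 7 = g 0 5 := (he 1 6 (by decide)).trans (by rw [h16]; exact Bool.not_not _)
  have h72 : g 7 2 = g 0 5 := (hs _ _).trans h27
  have h34 : g 3 4 = !g 0 5 := (he 2 7 (by decide)).trans (by rw [h27])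
  have h43 : g 4 3 = !g 0 5 := (hs _ _).trans h34
  have h60 : g 6 0 = g 0 6 := hs _ _
  have h17 : g 1 7 = !g 0 6 := he 0 6 (by decide)
  have h71 : g 7 1 = !g 0 6 := (hs _ _).trans h17
  have h24 : g 2 4 = g 0 6 := (he 1 7 (by decide)).trans (by rw [h17]; exact Bool.not_not _)
  have h42 : g 4 2 = g 0 6 := (hs _ _).trans h24
  have h35 : g 3 5 = !g 0 6 := (he 2 4 (by decide)).trans (by rw [h24])
  have h53 : g 5 3 = !g 0 6 := (hs _ _).trans h35
  have h70 : g 7 0 = g 0 7 := hs _ _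
  have h14 : g 1 4 = !g 0 7 := he 0 7 (by decide)
  have h41 : g 4 1 = !g 0 7 := (hs _ _).trans h14
  have h25 : g 2 5 = g 0 7 := (he 1 4 (by decide)).trans (by rw [h14]; exact Bool.not_not _)
  have h52 : g 5 2 = g 0 7 := (hs _ _).trans h25
  have h36 : g 3 6 = !g 0 7 := (he 2 5 (by decide)).trans (by rw [h25])
  have h63 : g 6 3 = !g 0 7 := (hs _ _).trans h36
  have h80 : g 8 0 = g 0 8 := hs _ _
  have h18 : g 1 8 = !g 0 8 := he 0 8 (by decide)
  have h81 : g 8 1 = !g 0 8 := (hs _ _).trans h18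
  have h28 : g 2 8 = g 0 8 := (he 1 8 (by decide)).trans (by rw [h18]; exact Bool.not_not _)
  have h82 : g 8 2 = g 0 8 := (hs _ _).trans h28
  have h38 : g 3 8 = !g 0 8 := (he 2 8 (by decide)).trans (by rw [h28])
  have h83 : g 8 3 = !g 0 8 := (hs _ _).trans h38
  have h54 : g 5 4 = g 4 5 := hs _ _
  have h56 : g 5 6 = !g 4 5 := he 4 5 (by decide)
  have h65 : g 6 5 = !g 4 5 := (hs _ _).trans h56
  have h67 : g 6 7 = g 4 5 := (he 5 6 (by decide)).trans (by rw [h56]; exact Bool.not_not _)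
  have h76 : g 7 6 = g 4 5 := (hs _ _).trans h67
  have h74 : g 7 4 = !g 4 5 := (he 6 7 (by decide)).trans (by rw [h67])
  have h47 : g 4 7 = !g 4 5 := (hs _ _).trans h74
  have h64 : g 6 4 = g 4 6 := hs _ _
  have h57 : g 5 7 = !g 4 6 := he 4 6 (by decide)
  have h75 : g 7 5 = !g 4 6 := (hs _ _).trans h57
  have h84 : g 8 4 = g 4 8 := hs _ _
  have h58 : g 5 8 = !g 4 8 := he 4 8 (by decide)
  have h85 : g 8 5 = !g 4 8 := (hs _ _).trans h58
  have h68 : g 6 8 = g 4 8 := (he 5 8 (by decide)).trans (by rw [h58]; exact Bool.not_not _)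
  have h86 : g 8 6 = g 4 8 := (hs _ _).trans h68
  have h78 : g 7 8 = !g 4 8 := (he 6 8 (by decide)).trans (by rw [h68])
  have h87 : g 8 7 = !g 4 8 := (hs _ _).trans h78
  funext i j
  fin_cases i <;> fin_cases j
  · exact h0 0
  · rfl
  · rfl
  · exact h03
  · rfl
  · rfl
  · rfl
  · rfl
  · rfl
  · exact h10
  · exact h0 1
  · exact h12
  · exact h13
  · exact h14
  · exact h15
  · exact h16
  · exact h17
  · exact h18
  · exact h20
  · exact h21
  · exact h0 2
  · exact h23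
  · exact h24
  · exact h25
  · exact h26
  · exact h27
  · exact h28
  · exact h30
  · exact h31
  · exact h32
  · exact h0 3
  · exact h34
  · exact h35
  · exact h36
  · exact h37
  · exact h38
  · exact h40
  · exact h41
  · exact h42
  · exact h43
  · exact h0 4
  · rfl
  · rfl
  · exact h47
  · rfl
  · exact h50
  · exact h51
  · exact h52
  · exact h53
  · exact h54
  · exact h0 5
  · exact h56
  · exact h57
  · exact h58
  · exact h60
  · exact h61
  · exact h62
  · exact h63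
  · exact h64
  · exact h65
  · exact h0 6
  · exact h67
  · exact h68
  · exact h70
  · exact h71
  · exact h72
  · exact h73
  · exact h74
  · exact h75
  · exact h76
  · exact h0 7
  · exact h78
  · exact h80
  · exact h81
  · exact h82
  · exact h83
  · exact h84
  · exact h85
  · exact h86
  · exact h87
  · exact h0 8

lemma tab8 (g : Fin 9 → Fin 9 → Bool) (hs : ∀ i j, g i j = g j i) (h0 : ∀ i, g i i = false)
    (he : ∀ i j, i ≠ j → g (s8 i) (s8 j) = !g i j) :
    g = t8 (g 0 1) (g 0 2) (g 0 3) (g 0 4) (g 0 8) := by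
  have h10 : g 1 0 = g 0 1 := hs _ _
  have h12 : g 1 2 = !g 0 1 := he 0 1 (by decide)
  have h21 : g 2 1 = !g 0 1 := (hs _ _).trans h12
  have h23 : g 2 3 = g 0 1 := (he 1 2 (by decide)).trans (by rw [h12]; exact Bool.not_not _)
  have h32 : g 3 2 = g 0 1 := (hs _ _).trans h23
  have h34 : g 3 4 = !g 0 1 := (he 2 3 (by decide)).trans (by rw [h23])
  have h43 : g 4 3 = !g 0 1 := (hs _ _).trans h34
  have h45 : g 4 5 = g 0 1 := (he 3 4 (by decide)).trans (by rw [h34]; exact Bool.not_not _)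
  have h54 : g 5 4 = g 0 1 := (hs _ _).trans h45
  have h56 : g 5 6 = !g 0 1 := (he 4 5 (by decide)).trans (by rw [h45])
  have h65 : g 6 5 = !g 0 1 := (hs _ _).trans h56
  have h67 : g 6 7 = g 0 1 := (he 5 6 (by decide)).trans (by rw [h56]; exact Bool.not_not _)
  have h76 : g 7 6 = g 0 1 := (hs _ _).trans h67
  have h70 : g 7 0 = !g 0 1 := (he 6 7 (by decide)).trans (by rw [h67])
  have h07 : g 0 7 = !g 0 1 := (hs _ _).trans h70
  have h20 : g 2 0 = g 0 2 := hs _ _
  have h13 : g 1 3 = !g 0 2 := he 0 2 (by decide)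
  have h31 : g 3 1 = !g 0 2 := (hs _ _).trans h13
  have h24 : g 2 4 = g 0 2 := (he 1 3 (by decide)).trans (by rw [h13]; exact Bool.not_not _)
  have h42 : g 4 2 = g 0 2 := (hs _ _).trans h24
  have h35 : g 3 5 = !g 0 2 := (he 2 4 (by decide)).trans (by rw [h24])
  have h53 : g 5 3 = !g 0 2 := (hs _ _).trans h35
  have h46 : g 4 6 = g 0 2 := (he 3 5 (by decide)).trans (by rw [h35]; exact Bool.not_not _)
  have h64 : g 6 4 = g 0 2 := (hs _ _).trans h46
  have h57 : g 5 7 = !g 0 2 := (he 4 6 (by decide)).trans (by rw [h46])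
  have h75 : g 7 5 = !g 0 2 := (hs _ _).trans h57
  have h60 : g 6 0 = g 0 2 := (he 5 7 (by decide)).trans (by rw [h57]; exact Bool.not_not _)
  have h06 : g 0 6 = g 0 2 := (hs _ _).trans h60
  have h71 : g 7 1 = !g 0 2 := (he 6 0 (by decide)).trans (by rw [h60])
  have h17 : g 1 7 = !g 0 2 := (hs _ _).trans h71
  have h30 : g 3 0 = g 0 3 := hs _ _
  have h14 : g 1 4 = !g 0 3 := he 0 3 (by decide)
  have h41 : g 4 1 = !g 0 3 := (hs _ _).trans h14
  have h25 : g 2 5 = g 0 3 := (he 1 4 (by decide)).trans (by rw [h14]; exact Bool.not_not _)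
  have h52 : g 5 2 = g 0 3 := (hs _ _).trans h25
  have h36 : g 3 6 = !g 0 3 := (he 2 5 (by decide)).trans (by rw [h25])
  have h63 : g 6 3 = !g 0 3 := (hs _ _).trans h36
  have h47 : g 4 7 = g 0 3 := (he 3 6 (by decide)).trans (by rw [h36]; exact Bool.not_not _)
  have h74 : g 7 4 = g 0 3 := (hs _ _).trans h47
  have h50 : g 5 0 = !g 0 3 := (he 4 7 (by decide)).trans (by rw [h47])
  have h05 : g 0 5 = !g 0 3 := (hs _ _).trans h50
  have h61 : g 6 1 = g 0 3 := (he 5 0 (by decide)).trans (by rw [h50]; exact Bool.not_not _)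
  have h16 : g 1 6 = g 0 3 := (hs _ _).trans h61
  have h72 : g 7 2 = !g 0 3 := (he 6 1 (by decide)).trans (by rw [h61])
  have h27 : g 2 7 = !g 0 3 := (hs _ _).trans h72
  have h40 : g 4 0 = g 0 4 := hs _ _
  have h15 : g 1 5 = !g 0 4 := he 0 4 (by decide)
  have h51 : g 5 1 = !g 0 4 := (hs _ _).trans h15
  have h26 : g 2 6 = g 0 4 := (he 1 5 (by decide)).trans (by rw [h15]; exact Bool.not_not _)
  have h62 : g 6 2 = g 0 4 := (hs _ _).trans h26
  have h37 : g 3 7 = !g 0 4 := (he 2 6 (by decide)).trans (by rw [h26])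
  have h73 : g 7 3 = !g 0 4 := (hs _ _).trans h37
  have h80 : g 8 0 = g 0 8 := hs _ _
  have h18 : g 1 8 = !g 0 8 := he 0 8 (by decide)
  have h81 : g 8 1 = !g 0 8 := (hs _ _).trans h18
  have h28 : g 2 8 = g 0 8 := (he 1 8 (by decide)).trans (by rw [h18]; exact Bool.not_not _)
  have h82 : g 8 2 = g 0 8 := (hs _ _).trans h28
  have h38 : g 3 8 = !g 0 8 := (he 2 8 (by decide)).trans (by rw [h28])
  have h83 : g 8 3 = !g 0 8 := (hs _ _).trans h38
  have h48 : g 4 8 = g 0 8 := (he 3 8 (by decide)).trans (by rw [h38]; exact Bool.not_not _)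
  have h84 : g 8 4 = g 0 8 := (hs _ _).trans h48
  have h58 : g 5 8 = !g 0 8 := (he 4 8 (by decide)).trans (by rw [h48])
  have h85 : g 8 5 = !g 0 8 := (hs _ _).trans h58
  have h68 : g 6 8 = g 0 8 := (he 5 8 (by decide)).trans (by rw [h58]; exact Bool.not_not _)
  have h86 : g 8 6 = g 0 8 := (hs _ _).trans h68
  have h78 : g 7 8 = !g 0 8 := (he 6 8 (by decide)).trans (by rw [h68])
  have h87 : g 8 7 = !g 0 8 := (hs _ _).trans h78
  funext i j
  fin_cases i <;> fin_cases j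
  · exact h0 0
  · rfl
  · rfl
  · rfl
  · rfl
  · exact h05
  · exact h06
  · exact h07
  · rfl
  · exact h10
  · exact h0 1
  · exact h12
  · exact h13
  · exact h14
  · exact h15
  · exact h16
  · exact h17
  · exact h18
  · exact h20
  · exact h21
  · exact h0 2
  · exact h23
  · exact h24
  · exact h25
  · exact h26
  · exact h27
  · exact h28
  · exact h30
  · exact h31
  · exact h32
  · exact h0 3
  · exact h34
  · exact h35
  · exact h36
  · exact h37
  · exact h38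
  · exact h40
  · exact h41
  · exact h42
  · exact h43
  · exact h0 4
  · exact h45
  · exact h46
  · exact h47
  · exact h48
  · exact h50
  · exact h51
  · exact h52
  · exact h53
  · exact h54
  · exact h0 5
  · exact h56
  · exact h57
  · exact h58
  · exact h60
  · exact h61
  · exact h62
  · exact h63
  · exact h64
  · exact h65
  · exact h0 6
  · exact h67
  · exact h68
  · exact h70
  · exact h71
  · exact h72
  · exact h73
  · exact h74
  · exact h75
  · exact h76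
  · exact h0 7
  · exact h78
  · exact h80
  · exact h81
  · exact h82
  · exact h83
  · exact h84
  · exact h85
  · exact h86
  · exact h87
  · exact h0 8

lemma model44 (H : SimpleGraph (Fin 9))
    (h : ∀ i j, i ≠ j → (H.Adj (s44 i) (s44 j) ↔ ¬ H.Adj i j)) : K5Model H := by
  classical
  have key := tab44 (fun i j => decide (H.Adj i j))
    (fun i j => by simp only [H.adj_comm]) (fun i => by simp) (fun i j hij => by
      by_cases hh : H.Adj i j
      · have := (h i j hij).not.mpr (not_not.mpr hh)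
        simp [hh, this]
      · have := (h i j hij).mpr hh
        simp [hh, this])
  have hf : ∀ i j, t44 (decide (H.Adj 0 1)) (decide (H.Adj 0 2)) (decide (H.Adj 0 4))
      (decide (H.Adj 0 5)) (decide (H.Adj 0 6)) (decide (H.Adj 0 7)) (decide (H.Adj 0 8))
      (decide (H.Adj 4 5)) (decide (H.Adj 4 6)) (decide (H.Adj 4 8)) i j = true → H.Adj i j := by
    intro i j hij
    rw [← key] at hij
    exact of_decide_eq_true hij
  rcases ok44 (decide (H.Adj 0 1)) (decide (H.Adj 0 2)) (decide (H.Adj 0 4))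
      (decide (H.Adj 0 5)) (decide (H.Adj 0 6)) (decide (H.Adj 0 7)) (decide (H.Adj 0 8))
      (decide (H.Adj 4 5)) (decide (H.Adj 4 6)) (decide (H.Adj 4 8)) with o | o | o | o
  all_goals exact k5_of_okb H _ hf _ _ o

lemma model8 (H : SimpleGraph (Fin 9))
    (h : ∀ i j, i ≠ j → (H.Adj (s8 i) (s8 j) ↔ ¬ H.Adj i j)) : K5Model H := by
  classical
  have key := tab8 (fun i j => decide (H.Adj i j))
    (fun i j => by simp only [H.adj_comm]) (fun i => by simp) (fun i j hij => by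
      by_cases hh : H.Adj i j
      · have := (h i j hij).not.mpr (not_not.mpr hh)
        simp [hh, this]
      · have := (h i j hij).mpr hh
        simp [hh, this])
  have hf : ∀ i j, t8 (decide (H.Adj 0 1)) (decide (H.Adj 0 2)) (decide (H.Adj 0 3))
      (decide (H.Adj 0 4)) (decide (H.Adj 0 8)) i j = true → H.Adj i j := by
    intro i j hij
    rw [← key] at hij
    exact of_decide_eq_true hij
  rcases ok8 (decide (H.Adj 0 1)) (decide (H.Adj 0 2)) (decide (H.Adj 0 3))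
      (decide (H.Adj 0 4)) (decide (H.Adj 0 8)) with o | o
  all_goals exact k5_of_okb H _ hf _ _ o

/-- an antimorphism of `H` -/
def Anti (H : SimpleGraph (Fin 9)) (φ : Equiv.Perm (Fin 9)) : Prop :=
  ∀ i j, i ≠ j → (H.Adj (φ i) (φ j) ↔ ¬ H.Adj i j)

lemma anti_pow (H : SimpleGraph (Fin 9)) (φ : Equiv.Perm (Fin 9)) (h : Anti H φ) (k : ℕ) :
    ∀ i j, i ≠ j → (H.Adj ((φ ^ (2 * k)) i) ((φ ^ (2 * k)) j) ↔ H.Adj i j) := by
  induction k with
  | zero => intro i j _; simp
  | succ k ih =>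
    intro i j hij
    have e : ∀ x, (φ ^ (2 * (k + 1))) x = φ (φ ((φ ^ (2 * k)) x)) := by
      intro x
      rw [show 2 * (k + 1) = (2 * k + 1) + 1 by ring, pow_succ', pow_succ']
      rfl
    have h1 : (φ ^ (2 * k)) i ≠ (φ ^ (2 * k)) j := fun hh => hij ((φ ^ (2 * k)).injective hh)
    have h2 : φ ((φ ^ (2 * k)) i) ≠ φ ((φ ^ (2 * k)) j) := fun hh => h1 (φ.injective hh)
    rw [e, e, h _ _ h2, h _ _ h1, not_not, ih i j hij]

lemma anti_odd (H : SimpleGraph (Fin 9)) (φ : Equiv.Perm (Fin 9)) (h : Anti H φ) (k : ℕ) :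
    Anti H (φ ^ (2 * k + 1)) := by
  intro i j hij
  have e : ∀ x, (φ ^ (2 * k + 1)) x = φ ((φ ^ (2 * k)) x) := by
    intro x
    rw [pow_succ']
    rfl
  have h1 : (φ ^ (2 * k)) i ≠ (φ ^ (2 * k)) j := fun hh => hij ((φ ^ (2 * k)).injective hh)
  rw [e, e, h _ _ h1, anti_pow H φ h k i j hij]

/-- two different points are not both fixed -/
lemma anti_fix (H : SimpleGraph (Fin 9)) (φ : Equiv.Perm (Fin 9)) (h : Anti H φ) (i j : Fin 9)
    (hij : i ≠ j) (hi : φ i = i) (hj : φ j = j) : False := by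
  have := h i j hij
  rw [hi, hj] at this
  tauto

/-- no transposed pair -/
lemma anti_swap (H : SimpleGraph (Fin 9)) (φ : Equiv.Perm (Fin 9)) (h : Anti H φ) (i j : Fin 9)
    (hij : i ≠ j) (hi : φ i = j) (hj : φ j = i) : False := by
  have := h i j hij
  rw [hi, hj, H.adj_comm] at this
  tauto

end Pool.Agent.Helper505_K9
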